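import Pool.Agent.H13.DEV.Targets
import Pool.Agent.H34.N6.LibC
import Pool.Agent.H12.QC.SB

/-!
# Row EETA: the element `η`
-/

set_option autoImplicit false

open Polynomial NumberField IsDedekindDomain Pool.Agent.H32.QC Pool.Agent.H34.N6
  Pool.Agent.H13.DEV

namespace Pool.Agent.H99.N6E.Eta

section

variable {L : Type} [Field L] [NumberField L]

theorem exists_place (m : ℕ) (hm : 1 < m) : ∃ w : FPl L, ((m : ℕ) : 𝓞 L) ∈ w.asIdeal := by
  have h1 : Ideal.span {((m : ℕ) : 𝓞 L)} ≠ ⊤ := by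
    rw [Ne, Ideal.span_singleton_eq_top]
    intro h
    have h2 := h.map (Algebra.norm ℤ : 𝓞 L →* ℤ)
    rw [Int.isUnit_iff] at h2
    have h3 : Algebra.norm ℤ ((m : ℕ) : 𝓞 L) = (m : ℤ) ^ Module.finrank ℤ (𝓞 L) := by
      have h4 := Algebra.norm_algebraMap (S := 𝓞 L) (m : ℤ)
      rw [map_natCast] at h4
      exact h4
    rw [h3] at h2
    have h5 : 1 < (m : ℤ) := by exact_mod_cast hm
    have h6 : Module.finrank ℤ (𝓞 L) ≠ 0 := by
      rw [NumberField.RingOfIntegers.rank]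
      exact Module.finrank_pos.ne'
    have h7 := one_lt_pow₀ h5 h6
    rcases h2 with h2 | h2 <;> omega
  obtain ⟨M, hM, hle⟩ := Ideal.exists_le_maximal _ h1
  have h2 : ((m : ℕ) : 𝓞 L) ∈ M := hle (Ideal.mem_span_singleton_self _)
  refine ⟨⟨M, hM.isPrime, ?_⟩, h2⟩
  rintro rfl
  rw [Ideal.mem_bot] at h2
  exact (Nat.cast_ne_zero.2 (by omega)) h2

/-- a place outside of a finite set -/
theorem exists_off (T : Finset (FPl L)) (p : ℕ) (hp : p.Prime) :
    ∃ w : FPl L, w ∉ T ∧ (p : 𝓞 L) ∉ w.asIdeal := by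
  have hN : 0 < ∏ w ∈ T, Ideal.absNorm w.asIdeal := by
    refine Finset.prod_pos fun w _ => ?_
    refine Nat.pos_of_ne_zero fun h => w.ne_bot ?_
    exact Ideal.absNorm_eq_zero_iff.1 h
  have hm : 1 < (∏ w ∈ T, Ideal.absNorm w.asIdeal) * p + 1 := by
    have := Nat.mul_pos hN hp.pos
    omega
  obtain ⟨w, hw⟩ := exists_place (L := L) _ hm
  rw [Nat.cast_add, Nat.cast_mul, Nat.cast_one] at hw
  have h1 : (1 : 𝓞 L) ∉ w.asIdeal := fun h =>
    w.isPrime.ne_top ((Ideal.eq_top_iff_one _).2 h)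
  refine ⟨w, fun hT => ?_, fun hpw => ?_⟩
  · have h2 : ((∏ w ∈ T, Ideal.absNorm w.asIdeal : ℕ) : 𝓞 L) ∈ w.asIdeal := by
      obtain ⟨c, hc⟩ := Finset.dvd_prod_of_mem (fun w : FPl L => Ideal.absNorm w.asIdeal) hT
      have hc' : ∏ w ∈ T, Ideal.absNorm w.asIdeal = Ideal.absNorm w.asIdeal * c := hc
      rw [hc', Nat.cast_mul]
      exact Ideal.mul_mem_right _ _ (Ideal.absNorm_mem w.asIdeal)
    exact h1 ((Ideal.add_mem_iff_right _ (Ideal.mul_mem_right _ _ h2)).1 hw)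
  · exact h1 ((Ideal.add_mem_iff_right _ (Ideal.mul_mem_left _ _ hpw)).1 hw)

theorem norm_one_of_val (w : FPl L) (x : L) (h : w.valuation L x = 1) : ‖ic w x‖ = 1 := by
  have hx : x ≠ 0 := by
    rintro rfl
    rw [map_zero] at h
    exact zero_ne_one h
  refine le_antisymm ((norm_ic_le_one_iff w x).2 h.le) ?_
  have h1 : ‖ic w x⁻¹‖ ≤ 1 := by
    rw [norm_ic_le_one_iff, map_inv₀, h, inv_one]
  rw [map_inv₀, norm_inv] at h1
  exact (inv_le_one₀ (norm_pos_iff.2 ((_root_.map_ne_zero _).2 hx))).1 h1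

theorem norm_one_of {F : Type} [NormedField F] [IsUltrametricDist F] {x : F}
    (h : ‖x - 1‖ < 1) : ‖x‖ = 1 := by
  refine le_antisymm ?_ ?_
  · have h1 : x = (x - 1) + 1 := by ring
    rw [h1]
    refine (IsUltrametricDist.norm_add_le_max _ _).trans (max_le h.le ?_)
    rw [norm_one]
  · by_contra hlt
    rw [not_le] at hlt
    have h1 : (1 : F) = x + -(x - 1) := by ring
    have h2 : ‖(1 : F)‖ ≤ max ‖x‖ ‖-(x - 1)‖ := by
      conv_lhs => rw [h1]
      exact IsUltrametricDist.norm_add_le_max _ _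
    rw [norm_one, norm_neg] at h2
    exact absurd h2 (not_le.2 (max_lt hlt h))

/-- continuity of the norm form -/
theorem cont {F : Type} [NormedField F] (a d c X Y : F) (h : a * (X ^ 2 - d * Y ^ 2) = c)
    (ε : ℝ) (hε : 0 < ε) : ∃ ρ : ℝ, 0 < ρ ∧ ∀ z1 z2 : F, ‖z1 - X‖ < ρ → ‖z2 - Y‖ < ρ →
      ‖a * (z1 ^ 2 - d * z2 ^ 2) - c‖ < ε := by
  have hc : Continuous fun z : F × F => a * (z.1 ^ 2 - d * z.2 ^ 2) := by fun_prop
  obtain ⟨ρ, hρ, h1⟩ := (Metric.continuous_iff.1 hc) (X, Y) ε hε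
  refine ⟨ρ, hρ, fun z1 z2 h2 h3 => ?_⟩
  have h4 := h1 (z1, z2) (by
    rw [Prod.dist_eq, dist_eq_norm, dist_eq_norm]
    exact max_lt h2 h3)
  rw [dist_eq_norm] at h4
  have h5 : a * (X ^ 2 - d * Y ^ 2) = c := h
  show ‖a * (z1 ^ 2 - d * z2 ^ 2) - c‖ < ε
  rw [← h5]
  exact h4

/-- targets at the infinite places -/
theorem infTargets (κ δ : L) (hκ : κ ≠ 0) (g : Pl L → L) (gi : InfinitePlace L → L)
    (hr : ∀ ψ : L →+* ℝ, ∃ x y : ℝ, ψ κ * (x ^ 2 - ψ δ * y ^ 2) = ψ (g (Sum.inr ψ)))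
    (ε : ℝ) (hε : 0 < ε) : ∃ (X Y : InfinitePlace L → ℂ) (ρ : ℝ), 0 < ρ ∧
      (∀ w, w.IsReal → (X w).im = 0) ∧ (∀ w, w.IsReal → (Y w).im = 0) ∧
      ∀ x y : L, (∀ w : InfinitePlace L, ‖w.embedding x - X w‖ < ρ) →
        (∀ w : InfinitePlace L, ‖w.embedding y - Y w‖ < ρ) →
        (∀ ψ : L →+* ℝ, |ψ (κ * (x ^ 2 - δ * y ^ 2) - g (Sum.inr ψ))| < ε) ∧
        ∀ w : InfinitePlace L, w.IsComplex → w (κ * (x ^ 2 - δ * y ^ 2) - gi w) < ε := by
  have key : ∀ w : InfinitePlace L, ∃ (X Y : ℂ) (ρ : ℝ), 0 < ρ ∧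
      (w.IsReal → X.im = 0) ∧ (w.IsReal → Y.im = 0) ∧ ∀ z1 z2 : ℂ, ‖z1 - X‖ < ρ →
        ‖z2 - Y‖ < ρ → (∀ hw : w.IsReal, ‖w.embedding κ * (z1 ^ 2 - w.embedding δ * z2 ^ 2) -
          w.embedding (g (Sum.inr (InfinitePlace.embedding_of_isReal hw)))‖ < ε) ∧
        (w.IsComplex → ‖w.embedding κ * (z1 ^ 2 - w.embedding δ * z2 ^ 2) -
          w.embedding (gi w)‖ < ε) := by
    intro w
    by_cases hw : w.IsReal
    · obtain ⟨x, y, hxy⟩ := hr (InfinitePlace.embedding_of_isReal hw)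
      have h1 : w.embedding κ * ((x : ℂ) ^ 2 - w.embedding δ * (y : ℂ) ^ 2) =
          w.embedding (g (Sum.inr (InfinitePlace.embedding_of_isReal hw))) := by
        rw [← InfinitePlace.embedding_of_isReal_apply hw, ← InfinitePlace.embedding_of_isReal_apply
          hw, ← InfinitePlace.embedding_of_isReal_apply hw, ← hxy]
        push_cast
        ring
      obtain ⟨ρ, hρ, h2⟩ := cont _ _ _ _ _ h1 ε hε
      refine ⟨x, y, ρ, hρ, fun _ => Complex.ofReal_im x, fun _ => Complex.ofReal_im y,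
        fun z1 z2 hz1 hz2 => ⟨fun _ => h2 z1 z2 hz1 hz2, fun hc => ?_⟩⟩
      exact absurd hw (InfinitePlace.not_isReal_iff_isComplex.2 hc)
    · have hne : w.embedding κ ≠ 0 := (_root_.map_ne_zero _).2 hκ
      obtain ⟨x, hx⟩ : ∃ x : ℂ, x ^ 2 = w.embedding (gi w) / w.embedding κ :=
        IsAlgClosed.exists_pow_nat_eq _ (by norm_num)
      have h1 : w.embedding κ * (x ^ 2 - w.embedding δ * (0 : ℂ) ^ 2) = w.embedding (gi w) := by
        rw [hx]
        field_simp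
        ring
      obtain ⟨ρ, hρ, h2⟩ := cont _ _ _ _ _ h1 ε hε
      exact ⟨x, 0, ρ, hρ, fun h => absurd h hw, fun h => absurd h hw,
        fun z1 z2 hz1 hz2 => ⟨fun h => absurd h hw, fun _ => h2 z1 z2 hz1 hz2⟩⟩
  choose X Y ρ hρ hX hY hXY using key
  obtain ⟨w0, hw0⟩ := Finite.exists_min ρ
  refine ⟨X, Y, ρ w0, hρ w0, hX, hY, fun x y hx hy => ⟨fun ψ => ?_, fun w hw => ?_⟩⟩
  · have hreal : ComplexEmbedding.IsReal (Complex.ofRealHom.comp ψ) := by
      rw [ComplexEmbedding.isReal_iff]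
      ext z
      exact Complex.conj_ofReal _
    set w : InfinitePlace L := InfinitePlace.mk (Complex.ofRealHom.comp ψ) with hwdef
    have hemb : w.embedding = Complex.ofRealHom.comp ψ :=
      InfinitePlace.embedding_mk_eq_of_isReal hreal
    have hwr : w.IsReal := ⟨_, hreal, rfl⟩
    have hψ : InfinitePlace.embedding_of_isReal hwr = ψ := by
      ext z
      have h1 := InfinitePlace.embedding_of_isReal_apply hwr z
      rw [hemb] at h1
      exact Complex.ofReal_injective h1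
    have h1 := (hXY w (w.embedding x) (w.embedding y) ((hx w).trans_le (hw0 w))
      ((hy w).trans_le (hw0 w))).1 hwr
    rw [hψ, ← map_pow, ← map_pow, ← map_mul, ← map_sub, ← map_mul, ← map_sub, hemb] at h1
    have h2 : (Complex.ofRealHom.comp ψ) (κ * (x ^ 2 - δ * y ^ 2) - g (Sum.inr ψ)) =
        ((ψ (κ * (x ^ 2 - δ * y ^ 2) - g (Sum.inr ψ)) : ℝ) : ℂ) := rfl
    rw [h2, Complex.norm_real, Real.norm_eq_abs] at h1
    exact h1
  · have h1 := (hXY w (w.embedding x) (w.embedding y) ((hx w).trans_le (hw0 w))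
      ((hy w).trans_le (hw0 w))).2 hw
    rw [← map_pow, ← map_pow, ← map_mul, ← map_sub, ← map_mul, ← map_sub] at h1
    rw [← InfinitePlace.norm_embedding_eq]
    exact h1

end

end Pool.Agent.H99.N6E.Eta

namespace Pool.Agent.H99.N6E

open Eta

theorem pf_ETA (hKAP : T_KAP) (hLTG : T_LTG) (hFAR : T_FAR) (hFIN : T_FIN) : T_ETA := by
  intro L _ _ δ p A g gi ε hδ hp hε hAp hAr hA2 hg hprod
  classical
  obtain ⟨κ, hκ, hκA, hκm⟩ := hKAP L δ A g hδ hA2 hg hprod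
  -- the finite places
  have hfA : {w : FPl L | (Sum.inl w : Pl L) ∈ A}.Finite :=
    (A.finite_toSet.preimage (Sum.inl_injective (α := FPl L) (β := L →+* ℝ)).injOn)
  have hfκ : {w : FPl L | ‖ic w κ‖ ≠ 1}.Finite := (hFIN L L).2.2 κ hκ
  have hfT : {w : FPl L | (Sum.inl w : Pl L) ∈ A ∨
      ((p : 𝓞 L) ∉ w.asIdeal ∧ ‖ic w κ‖ ≠ 1)}.Finite :=
    (hfA.union hfκ).subset fun w hw => hw.imp id fun h => h.2
  set T : Finset (FPl L) := hfT.toFinset with hT
  have hTmem : ∀ w, w ∈ T ↔ ((Sum.inl w : Pl L) ∈ A ∨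
      ((p : 𝓞 L) ∉ w.asIdeal ∧ ‖ic w κ‖ ≠ 1)) := fun w => hfT.mem_toFinset
  have hTp : ∀ w ∈ T, (p : 𝓞 L) ∉ w.asIdeal := by
    intro w hw
    rcases (hTmem w).1 hw with h | h
    · exact hAp w h
    · exact h.1
  have htar : ∀ w : FPl L, ∃ (x y : w.adicCompletion L) (U V : Set (w.adicCompletion L)),
      U ∈ nhds x ∧ V ∈ nhds y ∧ ∀ x' ∈ U, ∀ y' ∈ V,
        ((Sum.inl w : Pl L) ∈ A →
          ‖ic w κ * (x' ^ 2 - ic w δ * y' ^ 2) - ic w (g (Sum.inl w))‖ < ε) ∧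
        ((Sum.inl w : Pl L) ∉ A → ‖ic w κ * (x' ^ 2 - ic w δ * y' ^ 2)‖ ≤ 1 ∧
          (¬ IsSquare (ic w δ) → ‖ic w κ * (x' ^ 2 - ic w δ * y' ^ 2)‖ = 1)) := by
    intro w
    by_cases hw : (Sum.inl w : Pl L) ∈ A
    · obtain ⟨x, y, hxy⟩ := hκA (Sum.inl w) hw
      obtain ⟨ρ, hρ, h1⟩ := cont (ic w κ) (ic w δ) (ic w (g (Sum.inl w))) x y hxy ε hε
      refine ⟨x, y, Metric.ball x ρ, Metric.ball y ρ, Metric.ball_mem_nhds _ hρ,
        Metric.ball_mem_nhds _ hρ, fun x' hx' y' hy' => ⟨fun _ => ?_, fun h => absurd hw h⟩⟩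
      rw [Metric.mem_ball, dist_eq_norm] at hx' hy'
      exact h1 x' y' hx' hy'
    · obtain ⟨x, y, U, V, hU, hV, h1⟩ := hLTG L w κ δ hκ (norm_one_of_val w δ (hA2 w hw).2)
        (hκm w hw)
      exact ⟨x, y, U, V, hU, hV, fun x' hx' y' hy' =>
        ⟨fun h => absurd h hw, fun _ => h1 x' hx' y' hy'⟩⟩
  choose X Y U V hU hV hUV using htar
  obtain ⟨Xi, Yi, ρ, hρ, hXi, hYi, hinf⟩ := infTargets κ δ hκ g gi
    (fun ψ => hκA (Sum.inr ψ) (hAr ψ)) ε hε
  -- the element `x`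
  obtain ⟨w1, hw1T, hw1p⟩ := exists_off T p hp
  obtain ⟨x, hx1, hx2, hx3⟩ := Pool.Agent.H12.QC.Inf.strongApprox p hp (insert w1 T)
    (by
      intro w hw
      rcases Finset.mem_insert.1 hw with rfl | h
      · exact hw1p
      · exact hTp w h)
    (fun w => if w ∈ T then X w else 1)
    (fun w => if w ∈ T then U w else Metric.ball 1 1)
    (by
      intro w _
      by_cases h : w ∈ T
      · simp only [if_pos h]
        exact hU w
      · simp only [if_neg h]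
        exact Metric.ball_mem_nhds _ one_pos)
    Xi hXi ρ hρ
  have hxT : ∀ w ∈ T, ic w x ∈ U w := by
    intro w hw
    have h := hx1 w (Finset.mem_insert_of_mem hw)
    simp only [if_pos hw] at h
    exact h
  have hx0 : x ≠ 0 := by
    rintro rfl
    have h := hx1 w1 (Finset.mem_insert_self _ _)
    simp only [if_neg hw1T] at h
    rw [map_zero, Metric.mem_ball, dist_eq_norm, zero_sub, norm_neg, norm_one] at h
    exact lt_irrefl _ h
  have hxle : ∀ w : FPl L, w ∉ T → (p : 𝓞 L) ∉ w.asIdeal → ‖ic w x‖ ≤ 1 := by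
    intro w hw hpw
    by_cases h : w = w1
    · have h1 := hx1 w (by rw [h]; exact Finset.mem_insert_self _ _)
      simp only [if_neg hw] at h1
      rw [Metric.mem_ball, dist_eq_norm] at h1
      exact (norm_one_of h1).le
    · refine hx2 w (fun h' => ?_) hpw
      rcases Finset.mem_insert.1 h' with h'' | h''
      · exact h h''
      · exact hw h''
  -- the element `y`
  have hfT2 : {w : FPl L | w ∉ T ∧ (p : 𝓞 L) ∉ w.asIdeal ∧ ‖ic w x‖ < 1}.Finite :=
    ((hFIN L L).2.2 x hx0).subset fun w hw => hw.2.2.ne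
  obtain ⟨y, hy1, hy2, hy3⟩ := Pool.Agent.H12.QC.Inf.strongApprox p hp (T ∪ hfT2.toFinset)
    (by
      intro w hw
      rcases Finset.mem_union.1 hw with h | h
      · exact hTp w h
      · exact (hfT2.mem_toFinset.1 h).2.1)
    (fun w => if w ∈ T then Y w else 1)
    (fun w => if w ∈ T then V w else Metric.ball 1 1)
    (by
      intro w _
      by_cases h : w ∈ T
      · simp only [if_pos h]
        exact hV w
      · simp only [if_neg h]
        exact Metric.ball_mem_nhds _ one_pos)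
    Yi hYi ρ hρ
  have hyT : ∀ w ∈ T, ic w y ∈ V w := by
    intro w hw
    have h := hy1 w (Finset.mem_union_left _ hw)
    simp only [if_pos hw] at h
    exact h
  have hyT2 : ∀ w : FPl L, w ∉ T → (p : 𝓞 L) ∉ w.asIdeal → ‖ic w x‖ < 1 → ‖ic w y‖ = 1 := by
    intro w hw hpw hxw
    have h := hy1 w (Finset.mem_union_right _ (hfT2.mem_toFinset.2 ⟨hw, hpw, hxw⟩))
    simp only [if_neg hw] at h
    rw [Metric.mem_ball, dist_eq_norm] at h
    exact norm_one_of h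
  have hyle : ∀ w : FPl L, w ∉ T → (p : 𝓞 L) ∉ w.asIdeal → ‖ic w y‖ ≤ 1 := by
    intro w hw hpw
    by_cases h : ‖ic w x‖ < 1
    · exact (hyT2 w hw hpw h).le
    · refine hy2 w (fun h' => ?_) hpw
      rcases Finset.mem_union.1 h' with h'' | h''
      · exact hw h''
      · exact h (hfT2.mem_toFinset.1 h'').2.2
  obtain ⟨hreal, hcomp⟩ := hinf x y hx3 hy3
  refine ⟨κ * (x ^ 2 - δ * y ^ 2), ?_, hcomp, ?_⟩
  · rintro (w | ψ) hw
    · show ‖ic w (κ * (x ^ 2 - δ * y ^ 2) - g (Sum.inl w))‖ < ε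
      have h1 := (hUV w (ic w x) (hxT w ((hTmem w).2 (Or.inl hw))) (ic w y)
        (hyT w ((hTmem w).2 (Or.inl hw)))).1 hw
      rw [map_sub, map_mul, map_sub, map_mul, map_pow, map_pow]
      exact h1
    · exact hreal ψ
  · intro w hw hpw
    have hform : ic w (κ * (x ^ 2 - δ * y ^ 2)) =
        ic w κ * ((ic w x) ^ 2 - ic w δ * (ic w y) ^ 2) := by
      rw [map_mul, map_sub, map_mul, map_pow, map_pow]
    rw [hform]
    by_cases hwT : w ∈ T
    · exact (hUV w (ic w x) (hxT w hwT) (ic w y) (hyT w hwT)).2 hw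
    · have hκ1 : ‖ic w κ‖ = 1 := by
        by_contra hne
        exact hwT ((hTmem w).2 (Or.inr ⟨hpw, hne⟩))
      have hδ1 : ‖ic w δ‖ = 1 := norm_one_of_val w δ (hA2 w hw).2
      have h21 : ‖(2 : w.adicCompletion L)‖ = 1 := by
        have h := norm_one_of_val w 2 (hA2 w hw).1
        rw [map_ofNat] at h
        exact h
      have hx' := hxle w hwT hpw
      have hy' := hyle w hwT hpw
      rw [norm_mul, hκ1, one_mul]
      refine ⟨?_, fun hns => ?_⟩
      · rw [sub_eq_add_neg]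
        refine (IsUltrametricDist.norm_add_le_max _ _).trans (max_le ?_ ?_)
        · rw [norm_pow]
          exact pow_le_one₀ (norm_nonneg _) hx'
        · rw [norm_neg, norm_mul, hδ1, one_mul, norm_pow]
          exact pow_le_one₀ (norm_nonneg _) hy'
      · exact hFAR L w (ic w δ) (ic w x) (ic w y) h21 hδ1 hx' hy' (hyT2 w hwT hpw) hns

end Pool.Agent.H99.N6E
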