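import Pool.Agent.H13.DEV.Targets
import Pool.Agent.H34.N6.LibC
import Pool.Agent.H12.QC.WB

/-!
# Row EFAC: properties of the factor of the reduction at a good place
-/

set_option autoImplicit false

open Polynomial NumberField IsDedekindDomain Pool.Agent.H32.QC Pool.Agent.H34.N6
  Pool.Agent.H13.DEV

namespace Pool.Agent.H99.N6E

section norm

variable {F : Type} [NormedField F] [IsUltrametricDist F]

theorem sum_le {ι : Type} (s : Finset ι) (f : ι → F) (r : ℝ) (hr : 0 ≤ r)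
    (h : ∀ i ∈ s, ‖f i‖ ≤ r) : ‖∑ i ∈ s, f i‖ ≤ r := by
  refine Finset.sum_induction f (fun y => ‖y‖ ≤ r) ?_ ?_ h
  · intro a b ha hb
    exact (IsUltrametricDist.norm_add_le_max a b).trans (max_le ha hb)
  · show ‖(0 : F)‖ ≤ r
    rw [norm_zero]
    exact hr

theorem sum_lt {ι : Type} (s : Finset ι) (f : ι → F) (r : ℝ) (hr : 0 < r)
    (h : ∀ i ∈ s, ‖f i‖ < r) : ‖∑ i ∈ s, f i‖ < r := by
  refine Finset.sum_induction f (fun y => ‖y‖ < r) ?_ ?_ h
  · intro a b ha hb
    exact lt_of_le_of_lt (IsUltrametricDist.norm_add_le_max a b) (max_lt ha hb)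
  · show ‖(0 : F)‖ < r
    rw [norm_zero]
    exact hr

theorem ev_le (G : F[X]) (x : F) (r : ℝ) (hr : 0 ≤ r) (hG : ∀ i, ‖G.coeff i‖ ≤ r)
    (hx : ‖x‖ ≤ 1) : ‖eval x G‖ ≤ r := by
  rw [eval_eq_sum_range]
  refine sum_le _ _ r hr fun i _ => ?_
  rw [norm_mul, norm_pow]
  calc ‖G.coeff i‖ * ‖x‖ ^ i ≤ r * 1 := by
        gcongr
        · exact hG i
        · exact pow_le_one₀ (norm_nonneg x) hx
    _ = r := mul_one r

theorem ev_lt (G : F[X]) (x : F) (hG : ∀ i, ‖G.coeff i‖ < 1) (hx : ‖x‖ ≤ 1) :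
    ‖eval x G‖ < 1 := by
  rw [eval_eq_sum_range]
  refine sum_lt _ _ 1 one_pos fun i _ => ?_
  rw [norm_mul, norm_pow]
  calc ‖G.coeff i‖ * ‖x‖ ^ i ≤ ‖G.coeff i‖ * 1 := by
        gcongr
        exact pow_le_one₀ (norm_nonneg x) hx
    _ < 1 := by
        rw [mul_one]
        exact hG i

/-- a root of a monic polynomial with integral coefficients is integral -/
theorem root_le (G : F[X]) (hG : G.Monic) (hc : ∀ i, ‖G.coeff i‖ ≤ 1) (x : F)
    (hx : eval x G = 0) : ‖x‖ ≤ 1 := by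
  by_contra hlt
  rw [not_le] at hlt
  rw [eval_eq_sum_range, Finset.sum_range_succ, hG.coeff_natDegree, one_mul] at hx
  have h1 : x ^ G.natDegree = -∑ i ∈ Finset.range G.natDegree, G.coeff i * x ^ i := by
    linear_combination hx
  have h2 : ‖∑ i ∈ Finset.range G.natDegree, G.coeff i * x ^ i‖ < ‖x‖ ^ G.natDegree := by
    refine sum_lt _ _ _ (pow_pos (zero_lt_one.trans hlt) _) fun i hi => ?_
    rw [norm_mul, norm_pow]
    calc ‖G.coeff i‖ * ‖x‖ ^ i ≤ 1 * ‖x‖ ^ i := by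
          gcongr
          exact hc i
      _ = ‖x‖ ^ i := one_mul _
      _ < ‖x‖ ^ G.natDegree := pow_lt_pow_right₀ hlt (Finset.mem_range.1 hi)
  rw [← norm_neg, ← h1, norm_pow] at h2
  exact lt_irrefl _ h2

theorem norm_one_of {x : F} (h : ‖x - 1‖ < 1) : ‖x‖ = 1 := by
  refine le_antisymm ?_ ?_
  · have h1 : x = (x - 1) + 1 := by ring
    rw [h1]
    refine (IsUltrametricDist.norm_add_le_max _ _).trans (max_le h.le ?_)
    rw [norm_one]
  · by_contra hlt
    rw [not_le] at hlt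
    have h1 : (1 : F) = x + -(x - 1) := by ring
    have h2 : ‖(1 : F)‖ ≤ max ‖x‖ ‖-(x - 1)‖ := by
      conv_lhs => rw [h1]
      exact IsUltrametricDist.norm_add_le_max _ _
    rw [norm_one, norm_neg] at h2
    exact absurd h2 (not_le.2 (max_lt hlt h))

theorem norm_eq_of {x z : F} (h : ‖z - x‖ < ‖x‖) : ‖z‖ = ‖x‖ := by
  have hx : x ≠ 0 := by
    rintro rfl
    rw [norm_zero] at h
    exact absurd h (not_lt.2 (norm_nonneg _))
  have hx' : 0 < ‖x‖ := norm_pos_iff.2 hx
  have h1 : ‖z / x - 1‖ < 1 := by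
    have : z / x - 1 = (z - x) / x := by field_simp
    rw [this, norm_div, div_lt_one hx']
    exact h
  have h2 := norm_one_of h1
  rw [norm_div, div_eq_one_iff_eq hx'.ne'] at h2
  exact h2

theorem mul_one_of {x y : F} (hx : ‖x‖ ≤ 1) (hy : ‖y‖ ≤ 1) (h : ‖x * y‖ = 1) :
    ‖x‖ = 1 ∧ ‖y‖ = 1 := by
  rw [norm_mul] at h
  have h0 := norm_nonneg x
  have h1 := norm_nonneg y
  constructor
  · by_contra hne
    have := lt_of_le_of_ne hx hne
    nlinarith
  · by_contra hne
    have := lt_of_le_of_ne hy hne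
    nlinarith

theorem der_le (G : F[X]) (r : ℝ) (hG : ∀ i, ‖G.coeff i‖ ≤ r) (i : ℕ) :
    ‖(derivative G).coeff i‖ ≤ r := by
  rw [coeff_derivative, norm_mul]
  have h1 : ‖((i : F) + 1)‖ ≤ 1 := by
    have := IsUltrametricDist.norm_natCast_le_one F (i + 1)
    rwa [Nat.cast_add, Nat.cast_one] at this
  calc ‖G.coeff (i + 1)‖ * ‖(i : F) + 1‖ ≤ ‖G.coeff (i + 1)‖ * 1 := by gcongr
    _ ≤ r := by
        rw [mul_one]
        exact hG _

theorem der_lt (G : F[X]) (hG : ∀ i, ‖G.coeff i‖ < 1) (i : ℕ) :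
    ‖(derivative G).coeff i‖ < 1 := by
  rw [coeff_derivative, norm_mul]
  have h1 : ‖((i : F) + 1)‖ ≤ 1 := by
    have := IsUltrametricDist.norm_natCast_le_one F (i + 1)
    rwa [Nat.cast_add, Nat.cast_one] at this
  calc ‖G.coeff (i + 1)‖ * ‖(i : F) + 1‖ ≤ ‖G.coeff (i + 1)‖ * 1 := by gcongr
    _ < 1 := by
        rw [mul_one]
        exact hG _

end norm

section places

variable {k L : Type} [Field k] [NumberField k] [Field L] [NumberField L] [Algebra k L]

theorem ic_aeval (w : FPl L) (x : L) (G : k[X]) :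
    ic w (aeval x G) = eval (ic w x) (G.map (kc k w)) := by
  rw [aeval_def, hom_eval₂, eval_map]

theorem exists_poly {P : k[X]} {e : L} (hG : Gen P e) (hP : P.Monic) (h0 : aeval e P = 0)
    (z : L) : ∃ Q : k[X], Q.degree < P.degree ∧ aeval e Q = z := by
  have hint : IsIntegral k e := ⟨P, hP, h0⟩
  have h1 : z ∈ (IntermediateField.adjoin k {e}).toSubalgebra := by
    rw [hG.adj]
    exact trivial
  rw [IntermediateField.adjoin_simple_toSubalgebra_of_isAlgebraic hint.isAlgebraic,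
    Algebra.adjoin_singleton_eq_range_aeval] at h1
  obtain ⟨Q, hQ⟩ := h1
  refine ⟨Q %ₘ P, degree_modByMonic_lt Q hP, ?_⟩
  have h2 : aeval e (Q %ₘ P + P * (Q /ₘ P)) = aeval e Q := by rw [modByMonic_add_div]
  rw [map_add, map_mul, h0, zero_mul, add_zero] at h2
  rw [h2]
  exact hQ

end places

theorem pf_FAC (hRED : T_RED) (hCFI : T_CFI) (hBEL : T_BEL) (hFIN : T_FIN) : T_FAC := by
  intro k L _ _ _ _ _ P D e ws hP hG hgood
  have he0 : aeval e P = 0 := by rw [← hG.mp]; exact minpoly.aeval k e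
  obtain ⟨A, hAm, hAi, hAd, hAlt, hA⟩ := hRED k L P e ws hP hgood.intP he0
  -- integrality from below
  have hup : ∀ w : FPl L, w.under (𝓞 k) = ws.under (𝓞 k) → ∀ G : k[X],
      Int (ws.under (𝓞 k)) G → ∀ i, ‖(G.map (kc k w)).coeff i‖ ≤ 1 := by
    intro w hw G hGi i
    rw [coeff_map]
    have h1 := ((hBEL k L w).1 (G.coeff i)).1
    rw [hw] at h1
    exact h1.2 (hGi i)
  have huplt : ∀ w : FPl L, w.under (𝓞 k) = ws.under (𝓞 k) → ∀ G : k[X],
      (∀ i, ‖ic (ws.under (𝓞 k)) (G.coeff i)‖ < 1) → ∀ i, ‖(G.map (kc k w)).coeff i‖ < 1 := by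
    intro w hw G hGi i
    rw [coeff_map]
    have h1 := ((hBEL k L w).1 (G.coeff i)).2
    rw [hw] at h1
    exact h1.2 (hGi i)
  have hei : ∀ w : FPl L, w.under (𝓞 k) = ws.under (𝓞 k) → ‖ic w e‖ ≤ 1 := by
    intro w hw
    refine root_le (P.map (kc k w)) (hP.map _) (hup w hw P hgood.intP) _ ?_
    rw [← ic_aeval, he0, map_zero]
  have hev : ∀ w : FPl L, w.under (𝓞 k) = ws.under (𝓞 k) → ∀ G : k[X],
      Int (ws.under (𝓞 k)) G → ‖ic w (aeval e G)‖ ≤ 1 := by
    intro w hw G hGi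
    rw [ic_aeval]
    exact ev_le _ _ 1 zero_le_one (hup w hw G hGi) (hei w hw)
  have hevlt : ∀ w : FPl L, w.under (𝓞 k) = ws.under (𝓞 k) → ∀ G : k[X],
      (∀ i, ‖ic (ws.under (𝓞 k)) (G.coeff i)‖ < 1) → ‖ic w (aeval e G)‖ < 1 := by
    intro w hw G hGi
    rw [ic_aeval]
    exact ev_lt _ _ (huplt w hw G hGi) (hei w hw)
  have hder : ∀ w : FPl L, w.under (𝓞 k) = ws.under (𝓞 k) → ∀ G : k[X],
      Int (ws.under (𝓞 k)) G → ‖ic w (aeval e (derivative G))‖ ≤ 1 := by
    intro w hw G hGi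
    rw [ic_aeval, ← derivative_map]
    exact ev_le _ _ 1 zero_le_one (der_le _ 1 (hup w hw G hGi)) (hei w hw)
  have hderlt : ∀ w : FPl L, w.under (𝓞 k) = ws.under (𝓞 k) → ∀ G : k[X],
      (∀ i, ‖ic (ws.under (𝓞 k)) (G.coeff i)‖ < 1) →
      ‖ic w (aeval e (derivative G))‖ < 1 := by
    intro w hw G hGi
    rw [ic_aeval, ← derivative_map]
    exact ev_lt _ _ (der_lt _ (huplt w hw G hGi)) (hei w hw)
  -- the factorisation of `P`
  obtain ⟨C, B, hCi, hPAB, hB⟩ := hA P hgood.intP (by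
    rw [he0, map_zero, norm_zero]
    exact zero_lt_one)
  have hPd : ‖ic ws (aeval e (derivative P))‖ = 1 := by
    obtain ⟨a, b, ha, hb, hab⟩ := hgood.sep
    have h1 : aeval e (a * P + b * derivative P) = 1 := by rw [hab, map_one]
    rw [map_add, map_mul, he0, mul_zero, zero_add, map_mul] at h1
    have h2 : ‖ic ws (aeval e b) * ic ws (aeval e (derivative P))‖ = 1 := by
      rw [← map_mul, h1, map_one, norm_one]
    exact (mul_one_of (hev ws rfl b hb) (hder ws rfl P hgood.intP) h2).2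
  have hAC : ‖ic ws (aeval e (derivative A)) * ic ws (aeval e C)‖ = 1 := by
    have h1 : derivative P = derivative A * C + A * derivative C + derivative B := by
      rw [hPAB, derivative_add, derivative_mul]
    have h2 : ic ws (aeval e (derivative A)) * ic ws (aeval e C) =
        ic ws (aeval e (derivative P)) - (ic ws (aeval e A) * ic ws (aeval e (derivative C)) +
          ic ws (aeval e (derivative B))) := by
      rw [h1]
      simp only [map_add, map_mul]
      ring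
    have h3 : ‖ic ws (aeval e A) * ic ws (aeval e (derivative C)) +
        ic ws (aeval e (derivative B))‖ < 1 := by
      refine lt_of_le_of_lt (IsUltrametricDist.norm_add_le_max _ _) (max_lt ?_ ?_)
      · rw [norm_mul]
        exact mul_lt_one_of_nonneg_of_lt_one_left (norm_nonneg _) hAlt (hder ws rfl C hCi)
      · exact hderlt ws rfl B hB
    rw [h2]
    rw [← hPd]
    refine norm_eq_of ?_
    rw [sub_sub_cancel_left, norm_neg, hPd]
    exact h3
  obtain ⟨hAd1, hC1⟩ := mul_one_of (hder ws rfl A hAi) (hev ws rfl C hCi) hAC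
  -- the main step
  have hcore : ∀ z : L, (∀ w : FPl L, w.under (𝓞 k) = ws.under (𝓞 k) → ‖ic w z‖ ≤ 1) →
      ‖ic ws z‖ < 1 → ∃ C B : k[X], Int (ws.under (𝓞 k)) C ∧
        (∀ i, ‖ic (ws.under (𝓞 k)) (B.coeff i)‖ < 1) ∧
        z = aeval e A * aeval e C + aeval e B := by
    intro z hz hzs
    obtain ⟨Q, hQd, hQ⟩ := exists_poly hG hP he0 z
    have hQi : Int (ws.under (𝓞 k)) Q := by
      refine hCFI k L P D e _ hG hgood Q hQd fun w hw => ?_
      rw [hQ]
      exact hz w hw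
    obtain ⟨C, B, hC, hQB, hB⟩ := hA Q hQi (by rw [hQ]; exact hzs)
    refine ⟨C, B, hC, hB, ?_⟩
    rw [← hQ, hQB, map_add, map_mul]
  -- the places over `v`
  have hfin : {w : FPl L | w.under (𝓞 k) = ws.under (𝓞 k)}.Finite := by
    have h1 := ((hFIN k L).1 (Sum.inl (ws.under (𝓞 k)))).preimage
      (Sum.inl_injective (α := FPl L) (β := L →+* ℝ)).injOn
    refine h1.subset fun w hw => ?_
    show bel (k := k) (Sum.inl w) = Sum.inl (ws.under (𝓞 k))
    exact congrArg Sum.inl hw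
  have happ : ∀ (w₀ : FPl L) (x : w₀.adicCompletion L) (r : ℝ), 0 < r → r ≤ 1 →
      ∃ z : L, ‖ic w₀ z - x‖ < r ∧
        ∀ w : FPl L, w.under (𝓞 k) = ws.under (𝓞 k) → w ≠ w₀ → ‖ic w z‖ < 1 := by
    intro w₀ x r hr hr1
    classical
    obtain ⟨z, hz, -⟩ := Pool.Agent.H12.QC.weakApprox (insert w₀ hfin.toFinset)
      (Function.update (fun w' : FPl L => (0 : w'.adicCompletion L)) w₀ x)
      (fun w' => Metric.ball
        (Function.update (fun w' : FPl L => (0 : w'.adicCompletion L)) w₀ x w') r)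
      (fun w' _ => Metric.ball_mem_nhds _ hr) (fun _ => 0) 1 one_pos
    refine ⟨z, ?_, fun w hw hne => ?_⟩
    · have h1 := hz w₀ (Finset.mem_insert_self _ _)
      rw [Function.update_self, Metric.mem_ball, dist_eq_norm] at h1
      exact h1
    · have h1 := hz w (Finset.mem_insert_of_mem (hfin.mem_toFinset.2 hw))
      rw [Function.update_of_ne hne, Metric.mem_ball, dist_eq_norm, sub_zero] at h1
      exact h1.trans_le hr1
  refine ⟨A, hAm, hAi, hAd, hAlt, hAd1, fun w hw hne => ?_, fun π hπ hπmax x hx => ?_⟩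
  · refine le_antisymm (hev w hw A hAi) ?_
    by_contra hlt
    rw [not_le] at hlt
    obtain ⟨z, hz1, hz2⟩ := happ w 1 1 one_pos le_rfl
    have hzw : ‖ic w z‖ = 1 := norm_one_of hz1
    obtain ⟨C2, B2, hC2, hB2, hzz⟩ := hcore z (fun w' hw' => by
      by_cases h : w' = w
      · rw [h, hzw]
      · exact (hz2 w' hw' h).le) (hz2 ws rfl (Ne.symm hne))
    have h1 : ‖ic w z‖ < 1 := by
      rw [hzz, map_add, map_mul]
      refine lt_of_le_of_lt (IsUltrametricDist.norm_add_le_max _ _) (max_lt ?_ ?_)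
      · rw [norm_mul]
        exact mul_lt_one_of_nonneg_of_lt_one_left (norm_nonneg _) hlt (hev w hw C2 hC2)
      · exact hevlt w hw B2 hB2
    rw [hzw] at h1
    exact lt_irrefl _ h1
  · have hπ0 : π ≠ 0 := by
      rintro rfl
      obtain ⟨p, hp⟩ := (ws.under (𝓞 k)).valuation_exists_uniformizer k
      have hp0 : p ≠ 0 := by
        rintro rfl
        rw [map_zero] at hp
        exact WithZero.exp_ne_zero hp.symm
      have h1 : ‖ic (ws.under (𝓞 k)) p‖ < 1 := by
        have h2 : Valued.v (ic (ws.under (𝓞 k)) p) = (ws.under (𝓞 k)).valuation k p :=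
          HeightOneSpectrum.valuedAdicCompletion_eq_valuation' _ p
        rw [Valued.toNormedField.norm_lt_one_iff, h2, hp]
        decide
      have h3 := hπmax p h1
      rw [map_zero, norm_zero] at h3
      have h4 := norm_le_zero_iff.1 h3
      exact hp0 ((map_eq_zero _).1 h4)
    have hπpos : 0 < ‖ic (ws.under (𝓞 k)) π‖ := norm_pos_iff.2 ((_root_.map_ne_zero _).2 hπ0)
    have hρpos : 0 < ‖kc k ws π‖ := norm_pos_iff.2 ((_root_.map_ne_zero _).2 hπ0)
    have hBρ : ∀ G : k[X], (∀ i, ‖ic (ws.under (𝓞 k)) (G.coeff i)‖ < 1) →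
        ‖ic ws (aeval e G)‖ ≤ ‖kc k ws π‖ := by
      intro G hGi
      rw [ic_aeval]
      refine ev_le _ _ _ hρpos.le (fun i => ?_) (hei ws rfl)
      rw [coeff_map]
      have h1 : ‖ic (ws.under (𝓞 k)) (G.coeff i / π)‖ ≤ 1 := by
        rw [map_div₀, norm_div, div_le_one hπpos]
        exact hπmax _ (hGi i)
      have h2 := ((hBEL k L ws).1 (G.coeff i / π)).1.2 h1
      rw [map_div₀, norm_div, div_le_one hρpos] at h2
      exact h2
    have hAρ : ‖ic ws (aeval e A)‖ ≤ ‖kc k ws π‖ := by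
      have h1 : aeval e A * aeval e C + aeval e B = 0 := by
        rw [← map_mul, ← map_add, ← hPAB, he0]
      have h2 : ic ws (aeval e A) * ic ws (aeval e C) = -ic ws (aeval e B) := by
        rw [← map_mul, ← map_neg]
        congr 1
        linear_combination h1
      have h3 : ‖ic ws (aeval e A)‖ = ‖ic ws (aeval e B)‖ := by
        rw [← norm_neg (ic ws (aeval e B)), ← h2, norm_mul, hC1, mul_one]
      rw [h3]
      exact hBρ B hB
    by_cases hx0 : x = 0
    · rw [hx0, norm_zero]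
      exact hρpos.le
    obtain ⟨z, hz1, hz2⟩ := happ ws x ‖x‖ (norm_pos_iff.2 hx0) hx.le
    have hzx : ‖ic ws z‖ = ‖x‖ := norm_eq_of hz1
    obtain ⟨C3, B3, hC3, hB3, hzz⟩ := hcore z (fun w' hw' => by
      by_cases h : w' = ws
      · rw [h, hzx]
        exact hx.le
      · exact (hz2 w' hw' h).le) (by rw [hzx]; exact hx)
    rw [← hzx, hzz, map_add, map_mul]
    refine (IsUltrametricDist.norm_add_le_max _ _).trans (max_le ?_ (hBρ B3 hB3))
    rw [norm_mul]
    calc ‖ic ws (aeval e A)‖ * ‖ic ws (aeval e C3)‖ ≤ ‖kc k ws π‖ * 1 := by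
          gcongr
          exact hev ws rfl C3 hC3
      _ = ‖kc k ws π‖ := mul_one _

end Pool.Agent.H99.N6E
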